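import Mathlib
import Pool.Agent.Y840.PT.Dense

/-!
# Long narrow progressions of prime tuples inside dense sets of short shifts

In every set `A` of at least `η log x` positive integers up to `Λ log x` the `(k + 1)`-element subsets
`T` with the following two properties carry at least the proportion `(1 / 4) ^ k - ε` of the singular
series of all `(k + 1)`-element subsets of `A`: the set `Pts x T` of the `n ≤ x` for which all
`n + t`, `t ∈ T`, are prime has at least `δ 𝔖 T x / (log x) ^ (k + 1)` elements, and EVERY subset of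
`Pts x T` of relative density `ρ` contains `m`-term arithmetic progressions with a common difference
`≤ (log x) ^ B`.
-/

set_option autoImplicit false

open Finset

namespace Pool.Agent.Results.MP_485179_nt.NarrowProgressions

open Classical in
/-- the integers `1 ≤ n ≤ x` for which all `n + t`, `t ∈ T`, are prime -/
noncomputable def Pts (x : ℝ) (T : Finset ℕ) : Finset ℕ :=
  (Icc 1 ⌊x⌋₊).filter (fun n => ∀ t ∈ T, (n + t).Prime)

/-- the number of residue classes modulo `p` occupied by `T` -/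
def nu (T : Finset ℕ) (p : ℕ) : ℕ := (T.image (· % p)).card

/-- the singular series of `T` -/
noncomputable def 𝔖 (T : Finset ℕ) : ℝ :=
  ∏' p : Nat.Primes, (1 - (nu T p : ℝ) / ((p : ℕ) : ℝ)) / (1 - 1 / ((p : ℕ) : ℝ)) ^ T.card

/-- `U` contains `m` consecutive terms of an arithmetic progression with difference between `1`
and `D` -/
def HasAP (m : ℕ) (D : ℝ) (U : Finset ℕ) : Prop :=
  ∃ a d : ℕ, 1 ≤ d ∧ (d : ℝ) ≤ D ∧ ∀ j < m, a + j * d ∈ U

open Classical in
/-- The product `𝔖 T` converges.  For all `k` and all `Λ`, `η, ε > 0` there is `δ > 0` such that for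
all `m` and `ρ > 0` there are `B` and `x₀` such that for all real `x ≥ x₀` and every set `A` of at
least `η log x` positive integers `≤ Λ log x`: the `(k + 1)`-element subsets `T` of `A` with
`𝔖 T > 0`, with at least `δ 𝔖 T x / (log x) ^ (k + 1)` elements of `Pts x T` and such that every
`U ⊆ Pts x T` of at least `ρ (Pts x T).card` elements contains `m`-term progressions with difference
`≤ (log x) ^ B`, carry at least the proportion `(1 / 4) ^ k - ε` of the sum of `𝔖 T` over all
`(k + 1)`-element subsets `T` of `A`. -/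
theorem result :
    (∀ T : Finset ℕ, HasProd (fun p : Nat.Primes =>
      (1 - (nu T p : ℝ) / ((p : ℕ) : ℝ)) / (1 - 1 / ((p : ℕ) : ℝ)) ^ T.card) (𝔖 T)) ∧
    ∀ (k : ℕ) (Λ η ε : ℝ), 0 < η → 0 < ε → ∃ δ : ℝ, 0 < δ ∧
      ∀ (m : ℕ) (ρ : ℝ), 0 < ρ → ∃ (B : ℕ) (x₀ : ℝ), ∀ x : ℝ, x₀ ≤ x → ∀ A : Finset ℕ,
      (∀ a ∈ A, 1 ≤ a ∧ (a : ℝ) ≤ Λ * Real.log x) → η * Real.log x ≤ A.card →
      ((1 / 4 : ℝ) ^ k - ε) * ∑ T ∈ A.powersetCard (k + 1), 𝔖 T ≤
        ∑ T ∈ (A.powersetCard (k + 1)).filter (fun T => 0 < 𝔖 T ∧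
          δ * 𝔖 T * (x / Real.log x ^ (k + 1)) ≤ ((Pts x T).card : ℝ) ∧
          ∀ U ⊆ Pts x T, ρ * ((Pts x T).card : ℝ) ≤ (U.card : ℝ) →
            HasAP m (Real.log x ^ B) U), 𝔖 T :=
  ⟨fun T => Pool.Agent.H387R2.Uni.CT_hasProd T, Pool.Agent.Y840.PT.dense_final⟩

end Pool.Agent.Results.MP_485179_nt.NarrowProgressions
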