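import Pool.Agent.Y848.UG.FormsS

/-!
# Uniform prime tuples: progressions of strings of consecutive primes with almost prime companions

For all `m` and `r` there are `δ > 0`, `κ` and `H` such that for all `k`, `C` and `A` there is `B` with the following
property. For all large `x`, EVERY set `D` of `r` positive integers `b ≤ x ^ A` with `{0} ∪ D` admissible, and every
length `L ≤ log x / (log log x) ^ 2` with `L ≤ C` or `D ∩ (C, L] = ∅`, there are at least `x / log ^ κ x` integers `n ≤ x`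
for which there is a difference `1 ≤ d ≤ log ^ B x` such that the `k` windows `(n + j d, n + j d + L]`, `j < k`, contain
the same primes up to translation, all of them in `(n + j d, n + j d + H]`, which contains at least `m` primes, and for
all primes `p` of the windows and all `b ∈ D` all prime factors of `p + b` are larger than `x ^ δ`.
-/

set_option autoImplicit false

namespace Pool.Agent.Results.MP_485179_nt.ProgressionsOfStrings

open Finset

/-- There are at least `m` primes in `(n, n + H]`, and every prime `p` with `n < p ≤ n + L` lies in `(n, n + H]`, and for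
all `b ∈ D` all prime factors of `p + b` are larger than `x ^ δ`. -/
def Window (m H L : ℕ) (δ x : ℝ) (D : Finset ℕ) (n : ℕ) : Prop :=
  m ≤ #((Ioc n (n + H)).filter Nat.Prime) ∧ ∀ p ∈ Ioc n (n + L), p.Prime →
    p ≤ n + H ∧ ∀ b ∈ D, ∀ q : ℕ, q.Prime → q ∣ p + b → x ^ δ < q

open Classical in
theorem result (m r : ℕ) : ∃ δ : ℝ, 0 < δ ∧ ∃ κ H : ℕ, ∀ (k C : ℕ) (A : ℝ), ∃ B : ℕ, ∀ᶠ x : ℝ in Filter.atTop,
    ∀ (D : Finset ℕ) (L : ℕ), #D = r → (∀ b ∈ D, 1 ≤ b ∧ (b : ℝ) ≤ x ^ A) →
      (∀ p : ℕ, p.Prime → ∃ n : ℕ, ¬ p ∣ n ∧ ∀ b ∈ D, ¬ p ∣ n + b) →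
      (L : ℝ) ≤ Real.log x / Real.log (Real.log x) ^ 2 → (L ≤ C ∨ ∀ b ∈ D, b ≤ C ∨ L < b) →
      x / Real.log x ^ κ ≤ (#((Icc 1 ⌊x⌋₊).filter (fun n => ∃ d : ℕ, 1 ≤ d ∧ (d : ℝ) ≤ Real.log x ^ B ∧
        ∀ j < k, ((n + j * d : ℕ) : ℝ) ≤ x ∧ Window m H L δ x D (n + j * d) ∧
          ∀ t ∈ Icc 1 L, ((n + j * d + t).Prime ↔ (n + t).Prime))) : ℝ) := by
  obtain ⟨δ, hδ, κ, H, h⟩ := Pool.Agent.Y848.UG.forms_gen m r
  refine ⟨δ, hδ, κ, H, fun k C A => ?_⟩
  obtain ⟨B, hB⟩ := h k C (max A 0)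
  refine ⟨B, ?_⟩
  filter_upwards [hB, Filter.eventually_ge_atTop 1] with x h1 h2
  intro D L hD hsz hadm hL hLC
  have hxA : (1 : ℝ) ≤ x ^ (max A 0) := Real.one_le_rpow h2 (le_max_right _ _)
  have hmax : x ^ A ≤ x ^ (max A 0) := Real.rpow_le_rpow_of_exponent_le h2 (le_max_left _ _)
  have hinj : Function.Injective (fun b : ℕ => ((1 : ℕ), (b : ℤ))) := by
    intro b c h
    have := congrArg Prod.snd h
    simpa using this
  have k1 := h1 (D.image (fun b : ℕ => ((1 : ℕ), (b : ℤ)))) L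
    (by rw [card_image_of_injective _ hinj, hD])
    (by
      intro h3
      obtain ⟨b, hb, h4⟩ := mem_image.1 h3
      have h5 := (hsz b hb).1
      have h6 : (b : ℤ) = 0 := congrArg Prod.snd h4
      omega)
    (by
      intro f hf
      obtain ⟨b, hb, rfl⟩ := mem_image.1 hf
      exact le_rfl)
    (by
      intro p hp
      obtain ⟨n, hn1, hn2⟩ := hadm p hp
      refine ⟨n, fun h3 => hn1 (by exact_mod_cast h3), ?_⟩
      intro f hf
      obtain ⟨b, hb, rfl⟩ := mem_image.1 hf
      intro h3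
      apply hn2 b hb
      beta_reduce at h3
      push_cast at h3
      rw [one_mul] at h3
      exact_mod_cast h3)
    (by
      intro f hf
      obtain ⟨b, hb, rfl⟩ := mem_image.1 hf
      refine ⟨?_, ?_⟩
      · push_cast
        exact hxA
      · have h3 : |((b : ℤ) : ℝ)| = b := by
          push_cast
          exact abs_of_nonneg (Nat.cast_nonneg b)
        beta_reduce
        rw [h3]
        exact (hsz b hb).2.trans hmax) hL
    (by
      rcases hLC with h3 | h3
      · exact Or.inl h3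
      · right
        intro f hf _
        obtain ⟨b, hb, rfl⟩ := mem_image.1 hf
        rcases h3 b hb with h4 | h4
        · left
          exact Int.ofNat_le.2 h4
        · right
          exact Int.ofNat_lt.2 h4)
  refine k1.trans ?_
  rw [Nat.cast_le]
  apply card_le_card
  intro n hn
  rw [mem_filter] at hn ⊢
  obtain ⟨hn1, d, hd1, hd2, hd3⟩ := hn
  refine ⟨hn1, d, hd1, hd2, fun j hj => ?_⟩
  obtain ⟨h4, ⟨h5, h6⟩, h7⟩ := hd3 j hj
  refine ⟨(Nat.cast_le.2 h4).trans (Nat.floor_le (by linarith)), ⟨h5, ?_⟩, h7⟩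
  intro p hp hpp
  refine ⟨(h6 p hp hpp).1, fun b hb q hq hqd => ?_⟩
  refine (h6 p hp hpp).2 (1, (b : ℤ)) (mem_image.2 ⟨b, hb, rfl⟩) q hq ?_
  push_cast
  rw [one_mul]
  exact_mod_cast hqd

end Pool.Agent.Results.MP_485179_nt.ProgressionsOfStrings
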