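import Mathlib
import Pool.Agent.Y840.PT.Dense

/-!
# Szemerédi's theorem for almost prime tuples, uniformly in the shifts

For all sets `T` of `l` shifts without local obstruction (of ANY size), in every interval
`(Y, Y + X]`: (1) the `n` such that no `n + t`, `t ∈ T`, has a prime factor `≤ X ^ κ` contain
progressions of `m` terms with difference `≤ (log X) ^ B`, where `κ` depends on `l` only; (2) for every
`κ > 0` the same holds for every set of at least `ρ 𝔖 T X / (log X) ^ l` such `n`. The constants `B`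
and `X₀` do not depend on `T` and the interval.
-/

set_option autoImplicit false

open Finset

namespace Pool.Agent.Results.MP_485179_nt.UniformAlmostPrimes

/-- the number of residue classes modulo `p` occupied by `T` -/
def nu (T : Finset ℕ) (p : ℕ) : ℕ := (T.image (· % p)).card

/-- the singular series of `T` -/
noncomputable def 𝔖 (T : Finset ℕ) : ℝ :=
  ∏' p : Nat.Primes, (1 - (nu T p : ℝ) / ((p : ℕ) : ℝ)) / (1 - 1 / ((p : ℕ) : ℝ)) ^ T.card

/-- `n` is such that all prime factors of all `n + t`, `t ∈ T`, are larger than `z` -/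
def Free (T : Finset ℕ) (z : ℝ) (n : ℕ) : Prop := ∀ t ∈ T, ∀ p : ℕ, p.Prime → p ∣ n + t → z < p

/-- The product `𝔖 T` converges, and it is positive if and only if `T` misses a class modulo every
prime.  (1) For every `l` there is `κ > 0` such that for every `m` there are `B` and `X₀` such that for
all `X ≥ X₀`, all `Y` and all sets `T` of `l` shifts with `𝔖 T > 0` there are `a` and
`1 ≤ d ≤ (log X) ^ B` such that the `m` integers `n = a + j d`, `j < m`, are in `(Y, Y + X]` and all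
prime factors of all `n + t` are `> X ^ κ`.  (2) For all `l`, `m` and `κ, ρ > 0` there are `B` and `X₀`
such that for all `X ≥ X₀`, all `Y` and all sets `T` of `l` shifts with `𝔖 T > 0` every set
`U ⊆ (Y, Y + X]` of at least `ρ 𝔖 T X / (log X) ^ l` integers `n` for which all prime factors of all
`n + t` are `> X ^ κ` contains such a progression. -/
theorem result :
    (∀ T : Finset ℕ, HasProd (fun p : Nat.Primes =>
      (1 - (nu T p : ℝ) / ((p : ℕ) : ℝ)) / (1 - 1 / ((p : ℕ) : ℝ)) ^ T.card) (𝔖 T) ∧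
      (0 < 𝔖 T ↔ ∀ p : ℕ, p.Prime → nu T p < p)) ∧
    (∀ l : ℕ, ∃ κ : ℝ, 0 < κ ∧ ∀ m : ℕ, ∃ B X₀ : ℕ, ∀ X Y : ℕ, X₀ ≤ X →
      ∀ T : Finset ℕ, T.card = l → 0 < 𝔖 T →
      ∃ a d : ℕ, 1 ≤ d ∧ (d : ℝ) ≤ Real.log X ^ B ∧
        ∀ j < m, a + j * d ∈ Ioc Y (Y + X) ∧ Free T ((X : ℝ) ^ κ) (a + j * d)) ∧
    (∀ (l m : ℕ) (κ ρ : ℝ), 0 < κ → 0 < ρ → ∃ B X₀ : ℕ, ∀ X Y : ℕ, X₀ ≤ X →
      ∀ T : Finset ℕ, T.card = l → 0 < 𝔖 T →
      ∀ U : Finset ℕ, U ⊆ Ioc Y (Y + X) → (∀ n ∈ U, Free T ((X : ℝ) ^ κ) n) →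
      ρ * (𝔖 T * (X / Real.log X ^ l)) ≤ U.card →
      ∃ a d : ℕ, 1 ≤ d ∧ (d : ℝ) ≤ Real.log X ^ B ∧ ∀ j < m, a + j * d ∈ U) := by
  have hpos : ∀ T : Finset ℕ, 0 < 𝔖 T → ∀ p : ℕ, p.Prime → nu T p < p := by
    intro T hT p hp
    have h := Pool.Agent.Y840.PT.adm_of_pos (Pool.Agent.Y840.PT.prim_sh T)
      (by rw [Pool.Agent.Y840.PT.SL_sh]; exact hT) p hp
    rwa [Pool.Agent.Y840.PT.w_sh T hp.pos] at h
  refine ⟨fun T => ⟨Pool.Agent.H387R2.Uni.CT_hasProd T, hpos T, fun hT => ?_⟩, fun l => ?_,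
    fun l m κ ρ hκ hρ => ?_⟩
  · obtain ⟨c, hc, h⟩ := Pool.Agent.Y840.PT.SL_ge T.card
    have h2 := h (T.map Pool.Agent.Y840.PT.sh) (Pool.Agent.Y840.PT.prim_sh T) (by rw [card_map])
      (fun p hp => by
        rw [Pool.Agent.Y840.PT.w_sh T hp.pos]; exact hT p hp)
    rw [Pool.Agent.Y840.PT.SL_sh] at h2
    exact lt_of_lt_of_le hc h2
  · obtain ⟨κ, hκ, h⟩ := Pool.Agent.Y840.PT.alm l
    refine ⟨κ, hκ, fun m => ?_⟩
    obtain ⟨B, X₀, h2⟩ := h m
    refine ⟨B, X₀, fun X Y hX T hc hT => ?_⟩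
    obtain ⟨a, d, h3, h4, h5⟩ := h2 X Y hX (T.map Pool.Agent.Y840.PT.sh)
      (Pool.Agent.Y840.PT.prim_sh T) (by rw [card_map, hc]) (fun p hp => by
        rw [Pool.Agent.Y840.PT.w_sh T hp.pos]; exact hpos T hT p hp)
    refine ⟨a, d, h3, h4, fun j hj => ⟨(h5 j hj).1, fun t ht p hp hd => ?_⟩⟩
    refine (h5 j hj).2 (Pool.Agent.Y840.PT.sh t) (mem_map_of_mem _ ht) p hp ?_
    change p ∣ 1 * (a + j * d) + t
    rwa [one_mul]
  · obtain ⟨B, X₀, h⟩ := Pool.Agent.Y840.PT.sh_gen m l κ ρ hκ hρ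
    exact ⟨B, X₀, fun X Y hX T hc hT U hU hfree hcard => h X Y hX T hc hT U hU hfree hcard⟩

end Pool.Agent.Results.MP_485179_nt.UniformAlmostPrimes
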