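import Pool.Agent.Y859.SP.Tup

set_option autoImplicit false

/-!
# Almost prime tuples, uniformly in the shifts: density and gap laws
-/

namespace Pool.Agent.Results.MP_485179_nt.UniformTupleGapLaw

open Finset Filter

variable {k : ℕ}

/-- The tuple `d 0, …, d (k - 1)` is admissible: its singular series is not zero. -/
def Admissible (d : Fin k → ℕ) : Prop := ∀ p : ℕ, p.Prime → ∃ m : ℕ, ∀ i, ¬ p ∣ m + d i

/-- Every `m + d i` has at most `A r` prime factors (with multiplicity), all of them larger than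
`X ^ (1 / r)`. -/
def Good (d : Fin k → ℕ) (A r X m : ℕ) : Prop :=
  ∀ i, (m + d i).primeFactorsList.length ≤ A * r ∧
    ∀ p : ℕ, p.Prime → p ∣ m + d i → (X : ℝ) ^ (1 / (r : ℝ)) < (p : ℝ)

open Classical in
/-- The sieve density: the product over the primes `p ≤ X ^ (1 / r)` of `1 - ν(p) / p`, where `ν(p)` is
the number of the classes `m` mod `p` with `p ∣ m + d i` for some `i`, that is the number of the classes
mod `p` which meet the tuple. -/
noncomputable def V (d : Fin k → ℕ) (r X : ℕ) : ℝ :=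
  ∏ p ∈ (Finset.range (⌊(X : ℝ) ^ (1 / (r : ℝ))⌋₊ + 1)).filter Nat.Prime,
    (1 - (((Finset.range p).filter (fun m => ∃ i, p ∣ m + d i)).card : ℝ) / (p : ℝ))

open Classical in
/-- The number of the good `m` in `(Z, Z + Y]` with fewer than `l` good integers in `[m - T, m)`. -/
noncomputable def Near (d : Fin k → ℕ) (A r X l T Z Y : ℕ) : ℕ :=
  ((Finset.Ioc Z (Z + Y)).filter (fun m => Good d A r X m ∧
    ((Finset.Ico (m - T) m).filter (fun n => Good d A r X n)).card < l)).card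

open Pool.Agent.TH464.PO Pool.Agent.W123.RP Pool.Agent.Y859.SP
open Pool.Agent.Y859.SP.Tup (QT ctl_QT sf_Good V_QT)
open Pool.Agent.W123.RU (level_low)

open Classical in
/-- **All admissible tuples of `k ≥ 2` shifts up to `X ^ A`**: in every interval of length at least
`X ^ θ` inside `[0, X ^ A]` the almost prime tuples have the expected density `V ≥ v / log(X) ^ k`, and
their distances follow the Gamma laws of a Poisson process. -/
theorem result (k : ℕ) (hk : 2 ≤ k) : ∃ v : ℝ, 0 < v ∧ ∀ (A : ℕ) (θ : ℝ), 0 < θ →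
    ∀ (l0 : ℕ) (x0 ε : ℝ), 0 < ε → ∃ r0 : ℕ, ∀ r : ℕ, r0 ≤ r → ∀ᶠ X : ℕ in atTop,
      ∀ d : Fin k → ℕ, Admissible d → Function.Injective d → (∀ i, d i ≤ X ^ A) →
      v / Real.log X ^ k ≤ V d r X ∧
      ∀ Z Y : ℕ, (X : ℝ) ^ θ ≤ Y → Z + Y ≤ X ^ A →
      ∀ l T : ℕ, (l ≤ l0 ∨ T * V d r X ≤ x0) →
        |(Near d A r X l T Z Y : ℝ) - Y * V d r X * ∑ j ∈ Finset.range l,
          Real.exp (-(T * V d r X)) * (T * V d r X) ^ j / j.factorial| ≤ ε * (Y * V d r X) := by
  obtain ⟨v, hv, hVlo⟩ := V_lower_unif k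
  refine ⟨v, hv, ?_⟩
  intro A θ hθ l0 x0 ε hε
  obtain ⟨r0, h0⟩ := gap_unif_exc k (k ^ 4) (by omega) (A + 1 + k ^ 2 * (A + 2)) θ
    (fun R => R * k * (A + 2) + 1) (by positivity) (fun R => by positivity) hθ l0 x0 ε hε
  refine ⟨max r0 2, ?_⟩
  intro r hr
  have hr2 : 2 ≤ r := (le_max_right _ _).trans hr
  have hrr : (2 : ℝ) ≤ r := by exact_mod_cast hr2
  have hpow2 : Tendsto (fun X : ℕ => (X : ℝ) ^ (1 / (2 * r : ℝ))) atTop atTop :=
    (tendsto_rpow_atTop (by positivity)).comp tendsto_natCast_atTop_atTop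
  filter_upwards [h0 r ((le_max_left _ _).trans hr), sf_Good (k := k) A r (by omega),
    ctl_QT hk A, hpow2.eventually_ge_atTop 3, eventually_ge_atTop 16] with X hX hap hctl hX3 hX16
  intro d hadm hinj hA
  have hV : Vq (QT d) ⌊(X : ℝ) ^ (1 / (r : ℝ))⌋₊ = V d r X := V_QT d _
  have hc := hctl d hadm hinj hA
  refine ⟨?_, ?_⟩
  · rw [← hV]
    obtain ⟨hy1, hy2, hy3, hy4⟩ := level_low r hr2 X (by omega) (by linarith)
    have hX16r : (16 : ℝ) ≤ X := by exact_mod_cast hX16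
    have hL0 : 0 < Real.log X := Real.log_pos (by linarith)
    have hlogy : 0 < Real.log ⌊(X : ℝ) ^ (1 / (r : ℝ))⌋₊ := lt_of_lt_of_le (by positivity) hy2
    refine le_trans ?_ (hVlo (QT d) hc.per hc.adm _ hy4)
    apply div_le_div_of_nonneg_left hv.le (by positivity)
    exact pow_le_pow_left₀ hlogy.le hy3 k
  intro Z Y hY hZY l T hlT
  have h1 := hX (QT d) hc Z Y hY l T (by rw [hV]; exact hlT)
  rw [hV] at h1
  have hN : Near d A r X l T Z Y = Pk (Sf (QT d) ⌊(X : ℝ) ^ (1 / (r : ℝ))⌋₊) l T Z Y := by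
    unfold Near Pk
    congr 1
    apply Finset.filter_congr
    intro n hn
    rw [mem_Ioc] at hn
    have e1 : Sf (QT d) ⌊(X : ℝ) ^ (1 / (r : ℝ))⌋₊ n ↔ Good d A r X n :=
      hap d hA n (hn.2.trans hZY)
    have e2 : (Finset.Ico (n - T) n).filter (fun m => Good d A r X m) =
        (Finset.Ico (n - T) n).filter (Sf (QT d) ⌊(X : ℝ) ^ (1 / (r : ℝ))⌋₊) := by
      apply Finset.filter_congr
      intro m hm
      rw [mem_Ico] at hm
      exact (hap d hA m (hm.2.le.trans (hn.2.trans hZY))).symm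
    rw [e1, e2]
  rw [hN]
  exact h1

end Pool.Agent.Results.MP_485179_nt.UniformTupleGapLaw
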